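import Pool.Agent.helper34.DT.Spec

set_option autoImplicit false

namespace Pool.Agent.HC.DT

open Pool.Agent.HC

theorem AP : AP_stmt := by
  intro W _ _ _ Lam hL k
  classical
  refine ⟨?_, ?_⟩
  · obtain ⟨ε, hε, h⟩ := hL.discrete
    refine ⟨ε, hε, fun w hw hwε => ?_⟩
    funext i
    exact h (w i) (hw i) (lt_of_le_of_lt (norm_le_pi_norm w i) hwε)
  · rw [eq_top_iff]
    intro w _
    have h1 : w = ∑ i, Pi.single i (w i) := (Finset.univ_sum_single w).symm
    rw [h1]
    apply Submodule.sum_mem
    intro i _
    have h2 : (w i) ∈ Submodule.span ℝ (Lam : Set W) := by rw [hL.span]; trivial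
    have h3 : LinearMap.single ℝ (fun _ : Fin k => W) i (w i) ∈
        (Submodule.span ℝ (Lam : Set W)).map (LinearMap.single ℝ (fun _ : Fin k => W) i) :=
      Submodule.mem_map_of_mem h2
    rw [Submodule.map_span] at h3
    refine Submodule.span_mono ?_ h3
    rintro _ ⟨x, hx, rfl⟩
    intro j
    by_cases hj : j = i
    · subst hj
      simpa using hx
    · have : (LinearMap.single ℝ (fun _ : Fin k => W) i x) j = 0 := by
        simp [hj]
      rw [this]
      exact Lam.zero_mem

end Pool.Agent.HC.DT
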